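import Mathlib
import Pool.Agent.R231.BD.Defs
import Pool.Agent.R231.BD.Shear

set_option autoImplicit false

open Filter Topology Set Metric

namespace Pool.Agent.Results.MP_d9fe16_an.NotExtreme

open Pool.Agent.R231.BD

/-- `f` is an extreme point of the family `𝓕` of maps on the bidisc: it belongs to `𝓕` and is not a
proper convex combination of two members of `𝓕` that differ on the bidisc -/
def IsExtremeMap (𝓕 : Set (ℂ × ℂ → ℂ × ℂ)) (f : ℂ × ℂ → ℂ × ℂ) : Prop :=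
  f ∈ 𝓕 ∧ ¬ ∃ g ∈ 𝓕, ∃ h ∈ 𝓕, (∃ z ∈ U2, g z ≠ h z) ∧
    ∃ l : ℝ, 0 < l ∧ l < 1 ∧ ∀ z ∈ U2, f z = (l : ℂ) • g z + ((1 - l : ℝ) : ℂ) • h z

/-- the map `F^M (z) = (z₁ + (1 - 1/M) z₂², z₂)` -/
noncomputable def FM (M : ℝ) (z : ℂ × ℂ) : ℂ × ℂ := (z.1 + (1 - 1 / (M : ℂ)) * z.2 ^ 2, z.2)

lemma FM_eq (M : ℝ) : FM M = shear ((1 - 1 / M : ℝ) : ℂ) := by
  funext z
  simp [FM, shear]

/-- For every `M > 1` the map `F^M` belongs to `S⁰(𝕌², M)` but is not an extreme point of it: for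
all small `ε` the maps `(z₁ + (1 - 1/M ± ε) z₂², z₂)` belong to `S⁰(𝕌², M)`, and `F^M` is their
mean. -/
theorem result : ∀ M : ℝ, 1 < M →
    FM M ∈ S0M M ∧ ¬ IsExtremeMap (S0M M) (FM M) ∧
    ∃ ε₀ > (0 : ℝ), ∀ ε : ℂ, ‖ε‖ ≤ ε₀ →
      shear ((1 - 1 / M : ℝ) + ε) ∈ S0M M ∧ shear ((1 - 1 / M : ℝ) - ε) ∈ S0M M ∧
      ∀ z, FM M z = (1 / 2 : ℂ) • shear ((1 - 1 / M : ℝ) + ε) z +
        (1 / 2 : ℂ) • shear ((1 - 1 / M : ℝ) - ε) z := by
  intro M hM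
  have hM0 : 0 < M := by linarith
  have ha0 : 0 ≤ 1 - 1 / M := by
    have : 1 / M ≤ 1 := (div_le_one hM0).2 hM.le
    linarith
  set ε₀ : ℝ := min (1 / M) (M - 1 - (1 - 1 / M)) with hε₀
  have h1 : 1 - 1 / M < M - 1 := by
    have h1 : 1 - 1 / M = (M - 1) / M := by field_simp
    rw [h1, div_lt_iff₀ hM0]
    nlinarith
  have hε₀0 : 0 < ε₀ := lt_min (by positivity) (by linarith)
  have hmem : ∀ ε : ℂ, ‖ε‖ ≤ ε₀ → shear ((1 - 1 / M : ℝ) + ε) ∈ S0M M := by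
    intro ε hε
    have hn : ‖((1 - 1 / M : ℝ) : ℂ) + ε‖ ≤ (1 - 1 / M) + ε₀ := by
      refine (norm_add_le _ _).trans ?_
      rw [Complex.norm_real, Real.norm_of_nonneg ha0]
      linarith
    apply shear_mem_S0M
    · have := min_le_left (1 / M) (M - 1 - (1 - 1 / M))
      linarith
    · have := min_le_right (1 / M) (M - 1 - (1 - 1 / M))
      linarith
  have hmem' : ∀ ε : ℂ, ‖ε‖ ≤ ε₀ → shear ((1 - 1 / M : ℝ) - ε) ∈ S0M M := by
    intro ε hε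
    rw [sub_eq_add_neg]
    exact hmem (-ε) (by rwa [norm_neg])
  have hmean : ∀ ε : ℂ, ∀ z, FM M z = (1 / 2 : ℂ) • shear ((1 - 1 / M : ℝ) + ε) z +
        (1 / 2 : ℂ) • shear ((1 - 1 / M : ℝ) - ε) z := by
    intro ε z
    rw [FM_eq]
    simp only [shear, Prod.smul_mk, Prod.mk_add_mk, smul_eq_mul, Prod.mk.injEq]
    constructor <;> ring
  refine ⟨?_, ?_, ε₀, hε₀0, fun ε hε => ⟨hmem ε hε, hmem' ε hε, hmean ε⟩⟩
  · rw [FM_eq]
    have := hmem 0 (by simpa using hε₀0.le)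
    rwa [add_zero] at this
  · rintro ⟨_, hno⟩
    apply hno
    have hn : ‖(ε₀ : ℂ)‖ ≤ ε₀ := by rw [Complex.norm_real, Real.norm_of_nonneg hε₀0.le]
    refine ⟨_, hmem (ε₀ : ℂ) hn, _, hmem' (ε₀ : ℂ) hn, ⟨(0, 1 / 2), ?_, ?_⟩, 1 / 2, by norm_num,
      by norm_num, ?_⟩
    · rw [mem_U2]; constructor <;> norm_num
    · intro h
      have h2 := congrArg Prod.fst h
      simp only [shear] at h2
      have h3 : (ε₀ : ℂ) = 0 := by linear_combination 2 * h2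
      exact hε₀0.ne' (by exact_mod_cast h3)
    · intro z _
      rw [hmean (ε₀ : ℂ) z]
      norm_num

end Pool.Agent.Results.MP_d9fe16_an.NotExtreme
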